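import Mathlib
import Pool.Agent.TH409.CSDefs
import Pool.Agent.TH409.CS9

set_option autoImplicit false

namespace Pool.Agent.Results.MP_4c924c_co.Minimizers

open Pool.Agent.TH409.CS

universe u

/-- **Answer to Q1.** Let `G` be a finite abelian group of order `n`, let `h ≥ 2` and
`1 ≤ m ≤ n`. Then `ρ(G,m,h) = hm-h+1 < n` exactly when `hm-h+1 < n` and
`h * ((m-1) mod d) < d` for every divisor `d` of `n`; and in that case the `m`-subsets `A` of `G`
with `|hA| = hm-h+1` are exactly the `m`-subsets of the translates of the staircases `S` (with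
bottom subgroup `K`) for which `h|S| = hm + (h-1)(|K|-1)`. -/
theorem result (G : Type u) [AddCommGroup G] [Finite G] (m h : ℕ) (hh : 2 ≤ h) (hm1 : 1 ≤ m)
    (hm : m ≤ Nat.card G) :
    ((rho G m h = h * m - h + 1 ∧ h * m - h + 1 < Nat.card G) ↔
      (h * m - h + 1 < Nat.card G ∧ ∀ d, d ∣ Nat.card G → h * ((m - 1) % d) < d)) ∧
    (rho G m h = h * m - h + 1 → h * m - h + 1 < Nat.card G →
      ∀ A : Set G, A.ncard = m →
        ((sumset h A).ncard = h * m - h + 1 ↔
          ∃ (K : AddSubgroup G) (S : Set G) (x : G), IsStaircase h K S ∧ (∀ a ∈ A, a - x ∈ S) ∧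
            h * S.ncard = h * m + (h - 1) * (Nat.card K - 1))) := by
  classical
  have : Fintype G := Fintype.ofFinite G
  rw [Nat.card_eq_fintype_card] at hm ⊢
  exact ⟨valid_iff m h hh hm1 hm,
    fun h1 h2 A hA => minimisers m h hh hm1 hm h1 h2 A hA⟩

end Pool.Agent.Results.MP_4c924c_co.Minimizers
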